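import Mathlib

/-!
Divergence of `∑ 1/p` over the primes of an invertible residue class, and the density
consequence: a set containing all multiples of these primes has density one.
-/

namespace Pool.Agent.Lib.MP_e5c236_nt_AlmostAll

open ArithmeticFunction ArithmeticFunction.vonMangoldt Filter Topology

/-- The indicator of the primes `≡ a (mod q)`, divided by `n`. -/
noncomputable def primeInv (q : ℕ) (a : ZMod q) (n : ℕ) : ℝ :=
  open Classical in if n.Prime ∧ (n : ZMod q) = a then 1 / (n : ℝ) else 0

lemma primeInv_nonneg (q : ℕ) (a : ZMod q) (n : ℕ) : 0 ≤ primeInv q a n := by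
  unfold primeInv
  split_ifs <;> positivity

theorem not_summable_primeInv {q : ℕ} [NeZero q] {a : ZMod q} (ha : IsUnit a) :
    ¬ Summable (primeInv q a) := by
  classical
  intro hsum
  obtain ⟨C, hC⟩ := LSeries_residueClass_lower_bound ha
  set c : ℝ := (q.totient : ℝ)⁻¹ with hc
  have hcpos : 0 < c := inv_pos.mpr (mod_cast Nat.totient_pos.mpr (Nat.pos_of_neZero q))
  -- the tail is small
  have htail : ∃ N : ℕ, ∑' n, primeInv q a (n + N) < c / 2 := by
    have := tendsto_sum_nat_add (primeInv q a)
    exact ((tendsto_order.1 this).2 (c / 2) (by positivity)).exists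
  obtain ⟨N, hN⟩ := htail
  -- the non-prime part
  set B : ℝ := ∑' n : ℕ, (if n.Prime then 0 else residueClass a n) / n with hB
  set D : ℝ := ∑ n ∈ Finset.range N, (if n.Prime then residueClass a n else 0) / n with hD
  have hnp := summable_residueClass_non_primes_div a
  have hupper : ∀ x : ℝ, x ∈ Set.Ioc (1 : ℝ) 2 →
      ∑' n, residueClass a n / (n : ℝ) ^ x ≤ B + D + c / 2 / (x - 1) := by
    intro x hx
    have hx1 : 0 < x - 1 := sub_pos.mpr hx.1
    have hs : Summable fun n : ℕ => residueClass a n / (n : ℝ) ^ x :=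
      LSeries.summable_real_of_abscissaOfAbsConv_lt <|
        (abscissaOfAbsConv_residueClass_le_one a).trans_lt <| mod_cast hx.1
    have hs1 : Summable fun n : ℕ => (if n.Prime then 0 else residueClass a n) / (n : ℝ) ^ x := by
      refine hs.of_nonneg_of_le (fun n => ?_) (fun n => ?_)
      · have := residueClass_nonneg a n
        split_ifs <;> positivity
      · have := residueClass_nonneg a n
        split_ifs
        · simp only [zero_div]; positivity
        · exact le_rfl
    have hs2 : Summable fun n : ℕ => (if n.Prime then residueClass a n else 0) / (n : ℝ) ^ x := by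
      refine hs.of_nonneg_of_le (fun n => ?_) (fun n => ?_)
      · have := residueClass_nonneg a n
        split_ifs <;> positivity
      · have := residueClass_nonneg a n
        split_ifs
        · exact le_rfl
        · simp only [zero_div]; positivity
    have hsplit : ∑' n, residueClass a n / (n : ℝ) ^ x
        = (∑' n : ℕ, (if n.Prime then 0 else residueClass a n) / (n : ℝ) ^ x)
          + ∑' n : ℕ, (if n.Prime then residueClass a n else 0) / (n : ℝ) ^ x := by
      rw [← hs1.tsum_add hs2]
      refine tsum_congr fun n => ?_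
      split_ifs <;> simp
    have hle : ∀ n : ℕ, ∀ r : ℝ, 0 ≤ r → r / (n : ℝ) ^ x ≤ r / n := by
      intro n r hr
      rcases n.eq_zero_or_pos with rfl | hn
      · rw [Nat.cast_zero, Real.zero_rpow (by linarith [hx.1])]
      · refine div_le_div_of_nonneg_left hr (mod_cast hn) ?_
        conv_lhs => rw [← Real.rpow_one (n : ℝ)]
        exact Real.rpow_le_rpow_of_exponent_le (by exact_mod_cast hn) hx.1.le
    have h1 : (∑' n : ℕ, (if n.Prime then 0 else residueClass a n) / (n : ℝ) ^ x) ≤ B := by
      refine hs1.tsum_le_tsum (fun n => hle n _ ?_) hnp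
      have := residueClass_nonneg a n
      split_ifs <;> positivity
    have h2 : (∑' n : ℕ, (if n.Prime then residueClass a n else 0) / (n : ℝ) ^ x)
        ≤ D + c / 2 / (x - 1) := by
      rw [← hs2.sum_add_tsum_nat_add N]
      refine add_le_add ?_ ?_
      · refine Finset.sum_le_sum fun n _ => hle n _ ?_
        have := residueClass_nonneg a n
        split_ifs <;> positivity
      · have hterm : ∀ n : ℕ, (if (n + N).Prime then residueClass a (n + N) else 0)
            / ((n + N : ℕ) : ℝ) ^ x ≤ primeInv q a (n + N) * (1 / (x - 1)) := by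
          intro n
          generalize n + N = m
          by_cases hm : m.Prime
          · by_cases hma : (m : ZMod q) = a
            · have hm0 : (0 : ℝ) < m := by exact_mod_cast hm.pos
              rw [if_pos hm]
              have e1 : residueClass a m = Real.log m := by
                rw [residueClass, Set.indicator_of_mem (by exact hma), vonMangoldt_apply_prime hm]
              have e2 : primeInv q a m = 1 / (m : ℝ) := by
                unfold primeInv; rw [if_pos ⟨hm, hma⟩]
              rw [e1, e2]
              have e3 : Real.log m ≤ (m : ℝ) ^ (x - 1) / (x - 1) :=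
                Real.log_le_rpow_div hm0.le hx1
              have e4 : (m : ℝ) ^ x = m * (m : ℝ) ^ (x - 1) := by
                rw [Real.rpow_sub_one hm0.ne']
                field_simp
              rw [e4]
              have e5 : (0 : ℝ) < (m : ℝ) ^ (x - 1) := Real.rpow_pos_of_pos hm0 _
              rw [div_le_iff₀ (by positivity)]
              calc Real.log m ≤ (m : ℝ) ^ (x - 1) / (x - 1) := e3
                _ = 1 / (m : ℝ) * (1 / (x - 1)) * (m * (m : ℝ) ^ (x - 1)) := by
                  field_simp
            · have e1 : residueClass a m = 0 := by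
                rw [residueClass, Set.indicator_of_notMem (by exact hma)]
              rw [e1]
              simp only [ite_self, zero_div]
              exact mul_nonneg (primeInv_nonneg _ _ _) (by positivity)
          · rw [if_neg hm, zero_div]
            exact mul_nonneg (primeInv_nonneg _ _ _) (by positivity)
        have hsN : Summable fun n : ℕ => primeInv q a (n + N) := (summable_nat_add_iff N).2 hsum
        calc ∑' n : ℕ, (if (n + N).Prime then residueClass a (n + N) else 0)
              / ((n + N : ℕ) : ℝ) ^ x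
            ≤ ∑' n : ℕ, primeInv q a (n + N) * (1 / (x - 1)) := by
              refine Summable.tsum_le_tsum hterm ?_ (hsN.mul_right _)
              exact (summable_nat_add_iff N).2 hs2
          _ = (∑' n : ℕ, primeInv q a (n + N)) * (1 / (x - 1)) := tsum_mul_right
          _ ≤ c / 2 * (1 / (x - 1)) := by
              gcongr
          _ = c / 2 / (x - 1) := by ring
    rw [hsplit]
    linarith
  -- contradiction as `x → 1+`
  set K : ℝ := |B + D + C| + 1 with hK
  have hKpos : 0 < K := by positivity
  set δ : ℝ := min 1 (c / (4 * K)) with hδ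
  have hδpos : 0 < δ := lt_min one_pos (by positivity)
  have hδ1 : δ ≤ 1 := min_le_left _ _
  have hδ2 : δ ≤ c / (4 * K) := min_le_right _ _
  have hx : (1 + δ) ∈ Set.Ioc (1 : ℝ) 2 := ⟨by linarith, by linarith⟩
  have h3 := hC hx
  have h4 := hupper _ hx
  have h5 : (1 + δ) - 1 = δ := by ring
  rw [h5] at h3 h4
  have h6 : c / δ - c / 2 / δ ≤ B + D + C := by linarith
  have h7 : c / δ - c / 2 / δ = c / (2 * δ) := by
    field_simp; ring
  rw [h7] at h6
  have h8 : 2 * K ≤ c / (2 * δ) := by
    rw [le_div_iff₀ (by positivity)]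
    have : δ * (4 * K) ≤ c := by
      rwa [le_div_iff₀ (by positivity)] at hδ2
    linarith
  have h9 : B + D + C ≤ |B + D + C| := le_abs_self _
  linarith [abs_nonneg (B + D + C)]

/-- A set of positive integers containing all multiples of the primes `≡ a (mod q)` has
density one. -/
theorem tendsto_density {q : ℕ} [NeZero q] {a : ZMod q} (ha : IsUnit a) (P : ℕ → Prop)
    [DecidablePred P]
    (hP : ∀ p : ℕ, p.Prime → (p : ZMod q) = a → ∀ m : ℕ, 0 < m → P (m * p)) :
    Tendsto (fun N : ℕ => (((Finset.Icc 1 N).filter P).card : ℝ) / N) atTop (𝓝 1) := by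
  classical
  -- unboundedness of the partial sums
  have hdiv : Tendsto (fun n => ∑ i ∈ Finset.range n, primeInv q a i) atTop atTop :=
    (not_summable_iff_tendsto_nat_atTop_of_nonneg (primeInv_nonneg q a)).1
      (not_summable_primeInv ha)
  rw [Metric.tendsto_atTop]
  intro ε hε
  obtain ⟨T, hT⟩ := (hdiv.eventually_gt_atTop (-Real.log (ε / 2))).exists
  set F : Finset ℕ := (Finset.range T).filter (fun p => p.Prime ∧ (p : ZMod q) = a) with hF
  have hFprime : ∀ p ∈ F, p.Prime := fun p hp => (Finset.mem_filter.1 hp).2.1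
  have hFsum : -Real.log (ε / 2) < ∑ p ∈ F, 1 / (p : ℝ) := by
    refine lt_of_lt_of_eq hT ?_
    rw [hF, Finset.sum_filter]
    rfl
  set M : ℕ := ∏ p ∈ F, p with hM
  have hMpos : 0 < M := Finset.prod_pos fun p hp => (hFprime p hp).pos
  have hMfac : M.primeFactors = F := Nat.primeFactors_prod hFprime
  have hphi : (M.totient : ℝ) < ε / 2 * M := by
    have h1 : (M.totient : ℝ) = M * ∏ p ∈ F, (1 - (p : ℝ)⁻¹) := by
      have := Nat.totient_eq_mul_prod_factors M
      rw [hMfac] at this
      have h2 : ((M.totient : ℚ) : ℝ) = ((M * ∏ p ∈ F, (1 - (p : ℚ)⁻¹) : ℚ) : ℝ) := by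
        rw [this]
      push_cast at h2
      exact h2
    have h2 : ∏ p ∈ F, (1 - (p : ℝ)⁻¹) ≤ Real.exp (-∑ p ∈ F, 1 / (p : ℝ)) := by
      rw [← Finset.sum_neg_distrib, Real.exp_sum]
      refine Finset.prod_le_prod (fun p hp => ?_) (fun p hp => ?_)
      · have : (1 : ℝ) ≤ p := by exact_mod_cast (hFprime p hp).one_le
        rw [sub_nonneg]
        exact inv_le_one_of_one_le₀ this
      · have := Real.add_one_le_exp (-(1 / (p : ℝ)))
        rw [one_div] at this ⊢
        linarith
    have h3 : Real.exp (-∑ p ∈ F, 1 / (p : ℝ)) < ε / 2 := by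
      rw [← Real.exp_log (show 0 < ε / 2 by positivity)]
      exact Real.exp_lt_exp.2 (by linarith)
    have hM' : (0 : ℝ) < M := by exact_mod_cast hMpos
    rw [h1, mul_comm]
    exact mul_lt_mul_of_pos_right (h2.trans_lt h3) hM'
  -- counting
  have hcount : ∀ N : ℕ, (((Finset.Icc 1 N).filter (fun n => ¬ P n)).card : ℝ)
      ≤ ε / 2 * N + M := by
    intro N
    have hsub : (Finset.Icc 1 N).filter (fun n => ¬ P n)
        ⊆ (Finset.Ico 1 (1 + N)).filter (Nat.Coprime M) := by
      intro n hn
      rw [Finset.mem_filter, Finset.mem_Icc] at hn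
      rw [Finset.mem_filter, Finset.mem_Ico]
      refine ⟨⟨hn.1.1, by omega⟩, ?_⟩
      rw [hM]
      refine Nat.Coprime.prod_left fun p hp => ?_
      rw [(hFprime p hp).coprime_iff_not_dvd]
      rintro ⟨m, rfl⟩
      apply hn.2
      rw [mul_comm]
      refine hP p (hFprime p hp) (Finset.mem_filter.1 hp).2.2 m ?_
      rcases m.eq_zero_or_pos with rfl | h
      · simp at hn
      · exact h
    have h1 := (Finset.card_le_card hsub).trans (Nat.Ico_filter_coprime_le 1 N hMpos.ne')
    have h2 : (((Finset.Icc 1 N).filter (fun n => ¬ P n)).card : ℝ)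
        ≤ (M.totient : ℝ) * ((N / M : ℕ) + 1) := by exact_mod_cast h1
    have hM' : (0 : ℝ) < M := by exact_mod_cast hMpos
    have h3 : ((N / M : ℕ) : ℝ) ≤ (N : ℝ) / M := Nat.cast_div_le
    have h4 : (M.totient : ℝ) ≤ M := by exact_mod_cast Nat.totient_le M
    calc (((Finset.Icc 1 N).filter (fun n => ¬ P n)).card : ℝ)
        ≤ (M.totient : ℝ) * ((N / M : ℕ) + 1) := h2
      _ ≤ (M.totient : ℝ) * ((N : ℝ) / M + 1) := by gcongr
      _ = (M.totient : ℝ) * ((N : ℝ) / M) + M.totient := by ring
      _ ≤ ε / 2 * M * ((N : ℝ) / M) + M := by gcongr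
      _ = ε / 2 * N + M := by field_simp
  refine ⟨Nat.ceil (2 * M / ε) + 1, fun N hN => ?_⟩
  have hN1 : 2 * (M : ℝ) / ε < N := by
    have h1 : (2 * (M : ℝ) / ε) ≤ Nat.ceil (2 * M / ε) := Nat.le_ceil _
    have h2 : ((Nat.ceil (2 * (M : ℝ) / ε) : ℕ) : ℝ) + 1 ≤ N := by exact_mod_cast hN
    linarith
  have hNpos : (0 : ℝ) < N := lt_of_le_of_lt (by positivity) hN1
  have hsum : (((Finset.Icc 1 N).filter P).card : ℝ)
      + (((Finset.Icc 1 N).filter (fun n => ¬ P n)).card : ℝ) = N := by
    have := Finset.card_filter_add_card_filter_not (s := Finset.Icc 1 N) P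
    rw [Nat.card_Icc, Nat.add_sub_cancel] at this
    exact_mod_cast this
  have hbad := hcount N
  have hbad0 : (0 : ℝ) ≤ (((Finset.Icc 1 N).filter (fun n => ¬ P n)).card : ℝ) := by positivity
  have hMN : (M : ℝ) < ε / 2 * N := by
    rw [div_lt_iff₀ hε] at hN1
    linarith
  rw [Real.dist_eq, div_sub_one hNpos.ne', abs_div, abs_of_pos hNpos, div_lt_iff₀ hNpos]
  rw [abs_lt]
  constructor <;> linarith

end Pool.Agent.Lib.MP_e5c236_nt_AlmostAll
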