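import Mathlib

/-!
Every prime `p ≡ 1, 9, 25 (mod 28)` is of the form `s² + 6 s t + 2 t²` with `s, t ≥ 1`.
-/

namespace Pool.Agent.Lib.MP_e5c236_nt_AlmostAll

/-- Thue's lemma. -/
lemma thue {p : ℕ} (hp : p.Prime) (a : ZMod p) :
    ∃ x y : ℤ, (x ≠ 0 ∨ y ≠ 0) ∧ x ^ 2 < p ∧ y ^ 2 < p ∧ (x : ZMod p) = a * y := by
  classical
  have : NeZero p := ⟨hp.ne_zero⟩
  set k := Nat.sqrt p with hk
  have hcard : (Finset.univ : Finset (ZMod p)).card
      < (Finset.range (k + 1) ×ˢ Finset.range (k + 1)).card := by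
    rw [Finset.card_product, Finset.card_range, Finset.card_univ, ZMod.card]
    exact Nat.lt_succ_sqrt p
  obtain ⟨u, hu, v, hv, huv, heq⟩ := Finset.exists_ne_map_eq_of_card_lt_of_maps_to hcard
    (f := fun u : ℕ × ℕ => (u.1 : ZMod p) - a * (u.2 : ZMod p)) (fun _ _ => Finset.mem_univ _)
  have hkk : k * k < p := by
    have h1 : k * k ≤ p := Nat.sqrt_le p
    rcases h1.lt_or_eq with h | h
    · exact h
    · exfalso
      have : ¬ p.Prime := by
        rw [← h]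
        rcases Nat.lt_or_ge 1 k with h2 | h2
        · exact Nat.not_prime_mul (by omega) (by omega)
        · interval_cases k <;> norm_num
      exact this hp
  simp only [Finset.mem_product, Finset.mem_range] at hu hv
  have key : ∀ i j : ℕ, i < k + 1 → j < k + 1 → ((i : ℤ) - j) ^ 2 < p := by
    intro i j hi hj
    have h1 : |(i : ℤ) - j| ≤ k := by
      rw [abs_le]; constructor <;> omega
    have h2 : ((i : ℤ) - j) ^ 2 ≤ (k : ℤ) ^ 2 := by
      rw [← sq_abs]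
      exact pow_le_pow_left₀ (abs_nonneg _) h1 2
    have h3 : ((k : ℤ)) ^ 2 < p := by
      rw [sq]; exact_mod_cast hkk
    linarith
  refine ⟨(u.1 : ℤ) - v.1, (u.2 : ℤ) - v.2, ?_, key _ _ hu.1 hv.1, key _ _ hu.2 hv.2, ?_⟩
  · by_contra hcon
    push Not at hcon
    apply huv
    apply Prod.ext <;> omega
  · push_cast
    have : (u.1 : ZMod p) - a * (u.2 : ZMod p) = (v.1 : ZMod p) - a * (v.2 : ZMod p) := heq
    linear_combination this

lemma isSquare_seven {r : ℕ} (h : r = 1 ∨ r = 2 ∨ r = 4) : IsSquare ((r : ℕ) : ZMod 7) := by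
  rcases h with rfl | rfl | rfl
  · exact ⟨1, by decide⟩
  · exact ⟨3, by decide⟩
  · exact ⟨2, by decide⟩

lemma no_sol_four : ∀ x y k : ZMod 4, x ^ 2 - 7 * y ^ 2 = k → k ≠ ((-5 : ℤ) : ZMod 4) := by
  decide

lemma no_sol_seven : ∀ x : ZMod 7, ∀ P ∈ ({1, 2, 4} : Finset (ZMod 7)), ∀ k : ZMod 7,
    x ^ 2 = P * k → k ≠ ((-1 : ℤ) : ZMod 7) ∧ k ≠ ((-2 : ℤ) : ZMod 7) ∧
      k ≠ ((-4 : ℤ) : ZMod 7) := by
  decide

lemma three_dvd_sub_or_add {x y : ℤ} (h : (3 : ℤ) ∣ (x - y) * (x + y)) :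
    (3 : ℤ) ∣ x - y ∨ (3 : ℤ) ∣ x + y := by
  rcases (Int.Prime.dvd_mul' (by norm_num : Nat.Prime 3) (by exact_mod_cast h)) with h | h
  · left; exact_mod_cast h
  · right; exact_mod_cast h

lemma descend_three {x y p : ℤ} (h : x ^ 2 - 7 * y ^ 2 = -3 * p) :
    ∃ a b : ℤ, p = a ^ 2 - 7 * b ^ 2 := by
  have key : ∀ c z : ℤ, (z + 3 * c) ^ 2 - 7 * z ^ 2 = -3 * p → ∃ a b : ℤ, p = a ^ 2 - 7 * b ^ 2 := by
    intro c z hz
    refine ⟨3 * z + 2 * c, z + c, ?_⟩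
    have : 3 * (p - ((3 * z + 2 * c) ^ 2 - 7 * (z + c) ^ 2)) = 0 := by linear_combination hz
    linarith
  have h3 : (3 : ℤ) ∣ (x - y) * (x + y) := ⟨2 * y ^ 2 - p, by linear_combination h⟩
  rcases three_dvd_sub_or_add h3 with ⟨c, hc⟩ | ⟨c, hc⟩
  · exact key c y (by rw [← h]; have : y + 3 * c = x := by linarith
                      rw [this])
  · exact key (-c) y (by rw [← h]; have : y + 3 * (-c) = -x := by linarith
                         rw [this]; ring)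

lemma descend_six {x y p : ℤ} (h : x ^ 2 - 7 * y ^ 2 = -6 * p) :
    ∃ a b : ℤ, p = a ^ 2 - 7 * b ^ 2 := by
  have key : ∀ c z : ℤ, (z + 6 * c) ^ 2 - 7 * z ^ 2 = -6 * p → ∃ a b : ℤ, p = a ^ 2 - 7 * b ^ 2 := by
    intro c z hz
    refine ⟨c - z, -c, ?_⟩
    have : 6 * (p - ((c - z) ^ 2 - 7 * (-c) ^ 2)) = 0 := by linear_combination hz
    linarith
  have h3 : (3 : ℤ) ∣ (x - y) * (x + y) := ⟨2 * y ^ 2 - 2 * p, by linear_combination h⟩
  have h2 : (x - y) % 2 = 0 := by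
    have e1 : (x - y) * (x + y) = 2 * (3 * y ^ 2 - 3 * p) := by linear_combination h
    rcases Int.emod_two_eq_zero_or_one (x - y) with h' | h'
    · exact h'
    · exfalso
      have h'' : (x + y) % 2 = 1 := by omega
      have h4 : ((x - y) * (x + y)) % 2 = 1 := by
        rw [Int.mul_emod, h', h'']; rfl
      rw [e1] at h4
      omega
  rcases three_dvd_sub_or_add h3 with h | h
  · obtain ⟨c, hc⟩ : ∃ c, x = y + 6 * c := ⟨(x - y) / 6, by omega⟩
    exact key c y (by rw [← hc]; assumption)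
  · obtain ⟨c, hc⟩ : ∃ c, -x = y + 6 * c := ⟨(-x - y) / 6, by omega⟩
    exact key c y (by rw [← hc, neg_sq]; assumption)

/-- A prime `≡ 1, 9, 25 (mod 28)` is of the form `X² - 7 Y²`. -/
lemma exists_norm {p : ℕ} (hp : p.Prime) (h28 : p % 28 = 1 ∨ p % 28 = 9 ∨ p % 28 = 25) :
    ∃ x y : ℤ, (p : ℤ) = x ^ 2 - 7 * y ^ 2 := by
  have : Fact p.Prime := ⟨hp⟩
  have : Fact (Nat.Prime 7) := ⟨by norm_num⟩
  have hsq : IsSquare ((7 : ℕ) : ZMod p) := by
    rw [ZMod.exists_sq_eq_prime_iff_of_mod_four_eq_one (by omega) (by norm_num)]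
    have h7 : p % 7 = 1 ∨ p % 7 = 2 ∨ p % 7 = 4 := by omega
    rw [← ZMod.natCast_mod p 7]
    exact isSquare_seven h7
  obtain ⟨a, ha⟩ := hsq
  obtain ⟨x, y, hne, hx, hy, hxy⟩ := thue hp a
  have hdvd : (p : ℤ) ∣ x ^ 2 - 7 * y ^ 2 := by
    rw [← ZMod.intCast_zmod_eq_zero_iff_dvd]
    push_cast
    rw [hxy]
    push_cast at ha
    linear_combination (-(y : ZMod p) ^ 2) * ha
  obtain ⟨k, hk⟩ := hdvd
  have hp0 : (0 : ℤ) < p := by exact_mod_cast hp.pos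
  have hk1 : k < 1 := by
    by_contra hcon
    push Not at hcon
    nlinarith [sq_nonneg y]
  have hk2 : -7 < k := by
    by_contra hcon
    push Not at hcon
    nlinarith [sq_nonneg x]
  have hp4 : (p : ZMod 4) = 1 := by
    rw [← ZMod.natCast_mod p 4]
    have : p % 4 = 1 := by omega
    rw [this]; simp
  have hp7 : (p : ZMod 7) ∈ ({1, 2, 4} : Finset (ZMod 7)) := by
    rw [← ZMod.natCast_mod p 7]
    have : p % 7 = 1 ∨ p % 7 = 2 ∨ p % 7 = 4 := by omega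
    rcases this with h | h | h <;> rw [h] <;> simp
  have hk4 : (x : ZMod 4) ^ 2 - 7 * (y : ZMod 4) ^ 2 = (k : ZMod 4) := by
    have := congrArg (fun z : ℤ => (z : ZMod 4)) hk
    push_cast at this
    rw [this, hp4, one_mul]
  have hk7 : (x : ZMod 7) ^ 2 = (p : ZMod 7) * (k : ZMod 7) := by
    have := congrArg (fun z : ℤ => (z : ZMod 7)) hk
    push_cast at this
    rw [← this]
    have h7 : (7 : ZMod 7) = 0 := by rfl
    rw [h7]; ring
  have hk3 : k = 0 ∨ k = -3 ∨ k = -6 := by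
    have h4 := no_sol_four (x : ZMod 4) (y : ZMod 4) (k : ZMod 4) hk4
    have h7 := no_sol_seven (x : ZMod 7) _ hp7 (k : ZMod 7) hk7
    have hkk : k = 0 ∨ k = -1 ∨ k = -2 ∨ k = -3 ∨ k = -4 ∨ k = -5 ∨ k = -6 := by omega
    rcases hkk with rfl | rfl | rfl | rfl | rfl | rfl | rfl
    · simp
    · exact absurd rfl h7.1
    · exact absurd rfl h7.2.1
    · simp
    · exact absurd rfl h7.2.2
    · exact absurd rfl h4
    · simp
  rcases hk3 with rfl | rfl | rfl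
  · -- x ^ 2 = 7 y ^ 2
    exfalso
    have h0 : x ^ 2 = 7 * y ^ 2 := by linarith
    have hy0 : y = 0 := by
      by_contra hy0
      have h7 : Irrational (Real.sqrt (7 : ℕ)) := Nat.Prime.irrational_sqrt (by norm_num)
      apply h7
      refine ⟨|(x : ℚ) / y|, ?_⟩
      have : (7 : ℝ) = ((x : ℝ) / y) ^ 2 := by
        have hy' : (y : ℝ) ≠ 0 := by exact_mod_cast hy0
        field_simp
        exact_mod_cast h0.symm
      push_cast
      rw [this, Real.sqrt_sq_eq_abs, abs_div]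
    have hx0 : x = 0 := by
      rw [hy0] at h0
      simpa using h0
    rcases hne with h | h
    · exact h hx0
    · exact h hy0
  · obtain ⟨a, b, hab⟩ := descend_three (x := x) (y := y) (p := p) (by linarith)
    exact ⟨a, b, hab⟩
  · obtain ⟨a, b, hab⟩ := descend_six (x := x) (y := y) (p := p) (by linarith)
    exact ⟨a, b, hab⟩

/-- A prime `≡ 1, 9, 25 (mod 28)` is of the form `s² + 6 s t + 2 t²` with `s, t ≥ 1`. -/
theorem exists_form {p : ℕ} (hp : p.Prime) (h28 : p % 28 = 1 ∨ p % 28 = 9 ∨ p % 28 = 25) :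
    ∃ s t : ℕ, 0 < s ∧ 0 < t ∧ p = s ^ 2 + 6 * s * t + 2 * t ^ 2 := by
  classical
  obtain ⟨x₀, y₀, h₀⟩ := exists_norm hp h28
  -- no solution with `y = 0`
  have hnsq : ∀ x y : ℤ, (p : ℤ) = x ^ 2 - 7 * y ^ 2 → y ≠ 0 := by
    rintro x y hxy rfl
    have h1 : (p : ℤ) = x ^ 2 := by linarith
    have h2 : p = x.natAbs * x.natAbs := by
      zify
      rw [h1]
      rw [← sq, sq_abs]
    rcases Nat.lt_or_ge 1 x.natAbs with h | h
    · exact Nat.not_prime_mul (by omega) (by omega) (h2 ▸ hp)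
    · have := hp.two_le
      have h3 : x.natAbs * x.natAbs ≤ 1 * 1 := Nat.mul_le_mul h h
      omega
  have hex : ∃ m : ℕ, 0 < m ∧ ∃ x : ℕ, (p : ℤ) = (x : ℤ) ^ 2 - 7 * (m : ℤ) ^ 2 := by
    refine ⟨y₀.natAbs, Int.natAbs_pos.mpr (hnsq _ _ h₀), x₀.natAbs, ?_⟩
    rw [h₀]; push_cast; rw [sq_abs, sq_abs]
  set m := Nat.find hex with hm
  obtain ⟨hm0, x, hx⟩ := Nat.find_spec hex
  rw [← hm] at hm0 hx
  have hmin : ∀ m' : ℕ, 0 < m' → (∃ x : ℕ, (p : ℤ) = (x : ℤ) ^ 2 - 7 * (m' : ℤ) ^ 2) → m ≤ m' :=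
    fun m' h1 h2 => Nat.find_min' hex ⟨h1, h2⟩
  have hp0 : (0 : ℤ) < p := by exact_mod_cast hp.pos
  have hm0' : (0 : ℤ) < m := by exact_mod_cast hm0
  have hx0 : (0 : ℤ) ≤ x := by positivity
  -- the transformed solution
  have hnew : (p : ℤ) = (8 * (x : ℤ) - 21 * m) ^ 2 - 7 * (8 * (m : ℤ) - 3 * x) ^ 2 := by
    rw [hx]; ring
  have hle : (m : ℤ) ≤ |8 * (m : ℤ) - 3 * x| := by
    have h1 := hmin (8 * (m : ℤ) - 3 * x).natAbs (Int.natAbs_pos.mpr (hnsq _ _ hnew))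
      ⟨(8 * (x : ℤ) - 21 * m).natAbs, by
        rw [hnew]; push_cast; rw [sq_abs, sq_abs]⟩
    have h2 : (m : ℤ) ≤ ((8 * (m : ℤ) - 3 * x).natAbs : ℤ) := by exact_mod_cast h1
    rwa [Int.natCast_natAbs] at h2
  have hge : 3 * (m : ℤ) ≤ x := by
    rcases abs_cases (8 * (m : ℤ) - 3 * x) with ⟨h1, h2⟩ | ⟨h1, h2⟩
    · rw [h1] at hle
      exfalso
      nlinarith
    · rw [h1] at hle
      linarith
  have hgt : 3 * (m : ℤ) < x := by
    rcases hge.lt_or_eq with h | h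
    · exact h
    · exfalso
      rw [← h] at hx
      have h2 : (p : ℤ) = 2 * (m : ℤ) ^ 2 := by rw [hx]; ring
      omega
  obtain ⟨s, hs⟩ : ∃ s : ℕ, x = 3 * m + s := ⟨x - 3 * m, by omega⟩
  refine ⟨s, m, by omega, hm0, ?_⟩
  zify
  rw [hx, hs]
  push_cast
  ring

end Pool.Agent.Lib.MP_e5c236_nt_AlmostAll
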