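import Pool.Agent.Lib.MP_e5c236.Defs
import Pool.Agent.Lib.MP_e5c236_nt_AlmostAll.Form
import Pool.Agent.Lib.MP_e5c236_nt_AlmostAll.Density

/-!
MP_e5c236, Q1: almost all positive integers are a sum of exactly four positive integers whose
product is a fourth power.
-/

namespace Pool.Agent.Lib.MP_e5c236_nt_AlmostAll

open Pool.Agent.Lib.MP_e5c236 Filter Topology

lemma isRep_of {n : ℕ} (a b c d y : ℕ) (ha : 0 < a) (hb : 0 < b) (hc : 0 < c) (hd : 0 < d)
    (hy : 0 < y) (hsum : n = a + b + c + d) (hprod : a * b * c * d = y ^ 4) : IsRep 4 4 n := by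
  refine ⟨![a, b, c, d], ?_, ?_, y, hy, ?_⟩
  · intro i
    fin_cases i <;> simpa
  · rw [Fin.sum_univ_four]; simpa using hsum
  · rw [Fin.prod_univ_four]; simpa using hprod

lemma exists_of_isRep {n : ℕ} (h : IsRep 4 4 n) : ∃ a b c d y : ℕ, 0 < a ∧ 0 < b ∧ 0 < c ∧ 0 < d ∧
    0 < y ∧ n = a + b + c + d ∧ a * b * c * d = y ^ 4 := by
  obtain ⟨x, hx, hs, y, hy, hp⟩ := h
  rw [Fin.sum_univ_four] at hs
  rw [Fin.prod_univ_four] at hp
  exact ⟨x 0, x 1, x 2, x 3, y, hx 0, hx 1, hx 2, hx 3, hy, hs, hp⟩

lemma isRep_mul {n : ℕ} (h : IsRep 4 4 n) {m : ℕ} (hm : 0 < m) : IsRep 4 4 (m * n) := by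
  obtain ⟨a, b, c, d, y, ha, hb, hc, hd, hy, hs, hp⟩ := exists_of_isRep h
  refine isRep_of (m * a) (m * b) (m * c) (m * d) (m * y) (by positivity) (by positivity)
    (by positivity) (by positivity) (by positivity) (by rw [hs]; ring) ?_
  calc m * a * (m * b) * (m * c) * (m * d) = m ^ 4 * (a * b * c * d) := by ring
    _ = (m * y) ^ 4 := by rw [hp]; ring

/-- Every prime `≡ 1, 9, 25 (mod 28)` is representable. -/
theorem isRep_prime {p : ℕ} (hp : p.Prime) (h : p % 28 = 1 ∨ p % 28 = 9 ∨ p % 28 = 25) :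
    IsRep 4 4 p := by
  obtain ⟨s, t, hs, ht, hst⟩ := exists_form hp h
  exact isRep_of (s ^ 2) (2 * s * t) (4 * s * t) (2 * t ^ 2) (2 * s * t) (by positivity)
    (by positivity) (by positivity) (by positivity) (by positivity) (by rw [hst]; ring) (by ring)

/-- The exceptional set of Q1. -/
def exc : Finset ℕ := {1, 2, 3, 5, 6, 7, 11, 13, 14, 15, 17, 22, 23}

lemma check : ∀ n ∈ exc, ∀ a ∈ Finset.range n, ∀ b ∈ Finset.range (n - a),
    ∀ c ∈ Finset.range (n - a - b),
    a * b * c * (n - a - b - c) < 1296 ∧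
    (a * b * c * (n - a - b - c) ≠ 1 ∧ a * b * c * (n - a - b - c) ≠ 16 ∧
     a * b * c * (n - a - b - c) ≠ 81 ∧ a * b * c * (n - a - b - c) ≠ 256 ∧
     a * b * c * (n - a - b - c) ≠ 625) := by
  decide +kernel

/-- The elements of `E` are not representable. -/
theorem not_isRep_exc {n : ℕ} (hn : n ∈ exc) : ¬ IsRep 4 4 n := by
  intro h
  obtain ⟨a, b, c, d, y, ha, hb, hc, hd, hy, hs, hp⟩ := exists_of_isRep h
  have h1 := check n hn a (Finset.mem_range.2 (by omega)) b (Finset.mem_range.2 (by omega)) c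
    (Finset.mem_range.2 (by omega))
  have h2 : n - a - b - c = d := by omega
  rw [h2, hp] at h1
  have h3 : y < 6 := by
    by_contra hcon
    push Not at hcon
    have : 6 ^ 4 ≤ y ^ 4 := Nat.pow_le_pow_left hcon 4
    omega
  interval_cases y <;> omega

/-- Products of two exceptional primes that are not themselves exceptional. -/
def good : Finset ℕ := {4, 9, 10, 21, 25, 26, 33, 34, 35, 39, 46, 49, 51, 55, 65, 69, 77, 85, 91, 115, 119, 121, 143, 161, 169, 187, 221, 253, 289, 299, 391, 529}

theorem isRep_good {n : ℕ} (hn : n ∈ good) : IsRep 4 4 n := by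
  simp only [good, Finset.mem_insert, Finset.mem_singleton] at hn
  rcases hn with rfl | rfl | rfl | rfl | rfl | rfl | rfl | rfl | rfl | rfl | rfl | rfl | rfl | rfl | rfl | rfl | rfl | rfl | rfl | rfl | rfl | rfl | rfl | rfl | rfl | rfl | rfl | rfl | rfl | rfl | rfl | rfl
  · exact isRep_of 1 1 1 1 1 (by norm_num) (by norm_num) (by norm_num) (by norm_num)
      (by norm_num) (by norm_num) (by norm_num)
  · exact isRep_of 1 2 2 4 2 (by norm_num) (by norm_num) (by norm_num) (by norm_num)
      (by norm_num) (by norm_num) (by norm_num)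
  · exact isRep_of 1 1 4 4 2 (by norm_num) (by norm_num) (by norm_num) (by norm_num)
      (by norm_num) (by norm_num) (by norm_num)
  · exact isRep_of 1 4 8 8 4 (by norm_num) (by norm_num) (by norm_num) (by norm_num)
      (by norm_num) (by norm_num) (by norm_num)
  · exact isRep_of 1 4 4 16 4 (by norm_num) (by norm_num) (by norm_num) (by norm_num)
      (by norm_num) (by norm_num) (by norm_num)
  · exact isRep_of 3 6 8 9 6 (by norm_num) (by norm_num) (by norm_num) (by norm_num)
      (by norm_num) (by norm_num) (by norm_num)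
  · exact isRep_of 2 4 9 18 6 (by norm_num) (by norm_num) (by norm_num) (by norm_num)
      (by norm_num) (by norm_num) (by norm_num)
  · exact isRep_of 1 1 16 16 4 (by norm_num) (by norm_num) (by norm_num) (by norm_num)
      (by norm_num) (by norm_num) (by norm_num)
  · exact isRep_of 1 9 9 16 6 (by norm_num) (by norm_num) (by norm_num) (by norm_num)
      (by norm_num) (by norm_num) (by norm_num)
  · exact isRep_of 1 2 4 32 4 (by norm_num) (by norm_num) (by norm_num) (by norm_num)
      (by norm_num) (by norm_num) (by norm_num)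
  · exact isRep_of 1 3 18 24 6 (by norm_num) (by norm_num) (by norm_num) (by norm_num)
      (by norm_num) (by norm_num) (by norm_num)
  · exact isRep_of 1 6 6 36 6 (by norm_num) (by norm_num) (by norm_num) (by norm_num)
      (by norm_num) (by norm_num) (by norm_num)
  · exact isRep_of 5 5 16 25 10 (by norm_num) (by norm_num) (by norm_num) (by norm_num)
      (by norm_num) (by norm_num) (by norm_num)
  · exact isRep_of 6 9 16 24 12 (by norm_num) (by norm_num) (by norm_num) (by norm_num)
      (by norm_num) (by norm_num) (by norm_num)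
  · exact isRep_of 1 4 6 54 6 (by norm_num) (by norm_num) (by norm_num) (by norm_num)
      (by norm_num) (by norm_num) (by norm_num)
  · exact isRep_of 1 2 2 64 4 (by norm_num) (by norm_num) (by norm_num) (by norm_num)
      (by norm_num) (by norm_num) (by norm_num)
  · exact isRep_of 1 1 27 48 6 (by norm_num) (by norm_num) (by norm_num) (by norm_num)
      (by norm_num) (by norm_num) (by norm_num)
  · exact isRep_of 1 4 16 64 8 (by norm_num) (by norm_num) (by norm_num) (by norm_num)
      (by norm_num) (by norm_num) (by norm_num)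
  · exact isRep_of 1 18 24 48 12 (by norm_num) (by norm_num) (by norm_num) (by norm_num)
      (by norm_num) (by norm_num) (by norm_num)
  · exact isRep_of 1 16 49 49 14 (by norm_num) (by norm_num) (by norm_num) (by norm_num)
      (by norm_num) (by norm_num) (by norm_num)
  · exact isRep_of 2 4 32 81 12 (by norm_num) (by norm_num) (by norm_num) (by norm_num)
      (by norm_num) (by norm_num) (by norm_num)
  · exact isRep_of 1 10 10 100 10 (by norm_num) (by norm_num) (by norm_num) (by norm_num)
      (by norm_num) (by norm_num) (by norm_num)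
  · exact isRep_of 4 27 48 64 24 (by norm_num) (by norm_num) (by norm_num) (by norm_num)
      (by norm_num) (by norm_num) (by norm_num)
  · exact isRep_of 1 4 48 108 12 (by norm_num) (by norm_num) (by norm_num) (by norm_num)
      (by norm_num) (by norm_num) (by norm_num)
  · exact isRep_of 1 2 4 162 6 (by norm_num) (by norm_num) (by norm_num) (by norm_num)
      (by norm_num) (by norm_num) (by norm_num)
  · exact isRep_of 1 8 16 162 12 (by norm_num) (by norm_num) (by norm_num) (by norm_num)
      (by norm_num) (by norm_num) (by norm_num)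
  · exact isRep_of 1 48 64 108 24 (by norm_num) (by norm_num) (by norm_num) (by norm_num)
      (by norm_num) (by norm_num) (by norm_num)
  · exact isRep_of 2 27 32 192 24 (by norm_num) (by norm_num) (by norm_num) (by norm_num)
      (by norm_num) (by norm_num) (by norm_num)
  · exact isRep_of 1 16 16 256 16 (by norm_num) (by norm_num) (by norm_num) (by norm_num)
      (by norm_num) (by norm_num) (by norm_num)
  · exact isRep_of 2 9 96 192 24 (by norm_num) (by norm_num) (by norm_num) (by norm_num)
      (by norm_num) (by norm_num) (by norm_num)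
  · exact isRep_of 1 3 144 243 18 (by norm_num) (by norm_num) (by norm_num) (by norm_num)
      (by norm_num) (by norm_num) (by norm_num)
  · exact isRep_of 1 6 36 486 18 (by norm_num) (by norm_num) (by norm_num) (by norm_num)
      (by norm_num) (by norm_num) (by norm_num)

/-- The exceptional primes. -/
def excPrimes : Finset ℕ := {2, 3, 5, 7, 11, 13, 17, 23}

lemma excPrimes_spec {p : ℕ} (hp : p.Prime) (h : p ∈ exc) : p ∈ excPrimes := by
  simp only [exc, Finset.mem_insert, Finset.mem_singleton] at h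
  rcases h with rfl | rfl | rfl | rfl | rfl | rfl | rfl | rfl | rfl | rfl | rfl | rfl | rfl <;>
    first
    | (simp [excPrimes]; done)
    | (exfalso; revert hp; norm_num)

lemma two_primes : ∀ p ∈ excPrimes, ∀ q ∈ excPrimes, p * q ∈ exc ∨ p * q ∈ good := by
  decide +kernel

lemma three_primes : ∀ p ∈ excPrimes, ∀ q ∈ excPrimes, ∀ r ∈ excPrimes,
    p * q ∈ good ∨ p * r ∈ good ∨ q * r ∈ good := by
  decide +kernel

/-- Q1 reduces to primes. -/
theorem reduction (H : ∀ p : ℕ, p.Prime → p ∉ exc → IsRep 4 4 p) :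
    ∀ n : ℕ, 0 < n → n ∉ exc → IsRep 4 4 n := by
  intro n hn hne
  by_cases hex : ∃ p : ℕ, p.Prime ∧ p ∣ n ∧ p ∉ exc
  · obtain ⟨p, hp, ⟨m, rfl⟩, hpe⟩ := hex
    rw [mul_comm]
    exact isRep_mul (H p hp hpe) (Nat.pos_of_mul_pos_left hn)
  push Not at hex
  have hn1 : n ≠ 1 := by rintro rfl; exact hne (by decide)
  obtain ⟨p, hp, m, rfl⟩ := Nat.exists_prime_and_dvd hn1
  have hpE := excPrimes_spec hp (hex p hp (dvd_mul_right _ _))
  have hm0 : 0 < m := Nat.pos_of_mul_pos_left hn
  have hm1 : m ≠ 1 := by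
    rintro rfl
    rw [mul_one] at hne hex
    exact hne (hex p hp dvd_rfl)
  obtain ⟨q, hq, k, rfl⟩ := Nat.exists_prime_and_dvd hm1
  have hqE := excPrimes_spec hq (hex q hq ((dvd_mul_right q k).mul_left p))
  have hk0 : 0 < k := Nat.pos_of_mul_pos_left hm0
  by_cases hk1 : k = 1
  · subst hk1
    rw [mul_one] at hne ⊢
    rcases two_primes p hpE q hqE with h | h
    · exact absurd h hne
    · exact isRep_good h
  obtain ⟨r, hr, l, rfl⟩ := Nat.exists_prime_and_dvd hk1
  have hrE := excPrimes_spec hr (hex r hr (((dvd_mul_right r l).mul_left q).mul_left p))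
  have hl0 : 0 < l := Nat.pos_of_mul_pos_left hk0
  have hp0 := hp.pos
  have hq0 := hq.pos
  have hr0 := hr.pos
  rcases three_primes p hpE q hqE r hrE with h | h | h
  · have : p * (q * (r * l)) = (r * l) * (p * q) := by ring
    rw [this]; exact isRep_mul (isRep_good h) (by positivity)
  · have : p * (q * (r * l)) = (q * l) * (p * r) := by ring
    rw [this]; exact isRep_mul (isRep_good h) (by positivity)
  · have : p * (q * (r * l)) = (p * l) * (q * r) := by ring
    rw [this]; exact isRep_mul (isRep_good h) (by positivity)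

open Classical in
theorem density_one :
    Tendsto (fun N : ℕ => (((Finset.Icc 1 N).filter (fun n => IsRep 4 4 n)).card : ℝ) / N)
      atTop (𝓝 1) := by
  refine tendsto_density (q := 28) (a := 1) isUnit_one _ ?_
  intro p hp hpa m hm
  refine isRep_mul (isRep_prime hp (Or.inl ?_)) hm
  have h1 : ((p : ℕ) : ZMod 28) = ((1 : ℕ) : ZMod 28) := by simpa using hpa
  rw [ZMod.natCast_eq_natCast_iff'] at h1
  simpa using h1

theorem main :
    (∀ n ∈ ({1, 2, 3, 5, 6, 7, 11, 13, 14, 15, 17, 22, 23} : Finset ℕ), ¬ IsRep 4 4 n) ∧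
    (∀ p m : ℕ, p.Prime → (p % 28 = 1 ∨ p % 28 = 9 ∨ p % 28 = 25) → 0 < m →
      IsRep 4 4 (m * p)) ∧
    Tendsto (fun N : ℕ => (Nat.card {n : ℕ // 1 ≤ n ∧ n ≤ N ∧ IsRep 4 4 n} : ℝ) / N)
      atTop (𝓝 1) ∧
    ((∀ p : ℕ, p.Prime → p ∉ ({1, 2, 3, 5, 6, 7, 11, 13, 14, 15, 17, 22, 23} : Finset ℕ) →
        IsRep 4 4 p) →
      ∀ n : ℕ, 0 < n → n ∉ ({1, 2, 3, 5, 6, 7, 11, 13, 14, 15, 17, 22, 23} : Finset ℕ) →
        IsRep 4 4 n) := by
  classical
  refine ⟨fun n hn => not_isRep_exc hn, fun p m hp h hm => isRep_mul (isRep_prime hp h) hm, ?_,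
    reduction⟩
  refine density_one.congr fun N => ?_
  congr 1
  rw [← Nat.card_eq_finsetCard]
  congr 1
  apply Nat.card_congr
  refine Equiv.subtypeEquivRight fun n => ?_
  rw [Finset.mem_filter, Finset.mem_Icc]
  tauto

/-- Q1 is equivalent to its restriction to primes. -/
theorem q1_iff_primes :
    (∀ n : ℕ, 0 < n →
      (IsRep 4 4 n ↔ n ∉ ({1, 2, 3, 5, 6, 7, 11, 13, 14, 15, 17, 22, 23} : Finset ℕ))) ↔
    (∀ p : ℕ, p.Prime → p ∉ ({2, 3, 5, 7, 11, 13, 17, 23} : Finset ℕ) → IsRep 4 4 p) := by
  constructor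
  · intro h p hp hpE
    rw [h p hp.pos]
    intro hmem
    exact hpE (excPrimes_spec hp hmem)
  · intro h n hn
    constructor
    · intro hrep hmem
      exact not_isRep_exc hmem hrep
    · intro hne
      refine reduction (fun p hp hpe => h p hp fun hmem => hpe ?_) n hn hne
      have hsub : ∀ q ∈ ({2, 3, 5, 7, 11, 13, 17, 23} : Finset ℕ), q ∈ exc := by decide
      exact hsub p hmem

end Pool.Agent.Lib.MP_e5c236_nt_AlmostAll
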